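import Mathlib
import Pool.Graph.R_pool_sql_team_seeded_2aa45f1a.Q324.SC.Artin

/-!
# The braid relation of length `m` for two transvections
-/

set_option autoImplicit false

namespace Pool.Agent.H34.TH

open Pool.Agent.Q324.SC.Art (alt)

section

variable {A : Type} [Ring A] [Algebra ℝ A] {E F : A} {x : ℝ}

lemma alt_two (s t : A) (m : ℕ) : alt s t (m + 2) = s * t * alt s t m := by
  rw [alt, alt, mul_assoc]

lemma om_mul (hE : E * E = 0) (hF : F * F = 0) (hEF : E * F * E = x • E)
    (hFE : F * E * F = x • F) (m : ℕ) :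
    (E * F + F * E - x • (1 : A)) * alt (1 + E) (1 + F) m = E * F + F * E - x • (1 : A) ∧
    (E * F + F * E - x • (1 : A)) * alt (1 + F) (1 + E) m = E * F + F * E - x • (1 : A) := by
  have h1 : (E * F + F * E - x • (1 : A)) * (1 + E) = E * F + F * E - x • (1 : A) := by
    have : (E * F + F * E - x • (1 : A)) * (1 + E) =
      E * F + F * E - x • (1 : A) + (E * F * E + F * (E * E) - x • E) := by
      simp only [sub_mul, add_mul, mul_add, mul_one, smul_mul_assoc, one_mul, mul_assoc]
      try abel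
    rw [this, hEF, hE, mul_zero, add_zero, sub_self, add_zero]
  have h2 : (E * F + F * E - x • (1 : A)) * (1 + F) = E * F + F * E - x • (1 : A) := by
    have : (E * F + F * E - x • (1 : A)) * (1 + F) =
      E * F + F * E - x • (1 : A) + (E * (F * F) + F * E * F - x • F) := by
      simp only [sub_mul, add_mul, mul_add, mul_one, smul_mul_assoc, one_mul, mul_assoc]
      try abel
    rw [this, hFE, hF, mul_zero, zero_add, sub_self, add_zero]
  induction m with
  | zero => exact ⟨mul_one _, mul_one _⟩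
  | succ m ih =>
    constructor
    · rw [alt, ← mul_assoc, h1, ih.2]
    · rw [alt, ← mul_assoc, h2, ih.1]

lemma sq_rel (hE : E * E = 0) (hF : F * F = 0) (hEF : E * F * E = x • E)
    (hFE : F * E * F = x • F) :
    (1 + E) * (1 + F) * ((1 + E) * (1 + F)) =
      (2 + x) • ((1 + E) * (1 + F)) - 1 + (E * F + F * E - x • (1 : A)) := by
  have h : (1 + E) * (1 + F) * ((1 + E) * (1 + F)) = 1 + (2 : ℝ) • E + (2 : ℝ) • F +
      (3 : ℝ) • (E * F) + F * E + E * E + F * F + E * F * E + F * E * F + (E * E) * F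
      + E * (F * F) + (E * F * E) * F := by
    rw [two_smul, two_smul, show (3 : ℝ) = 1 + 1 + 1 by norm_num, add_smul, add_smul, one_smul]
    simp only [add_mul, mul_add, mul_one, one_mul, mul_assoc]
    abel
  rw [h, hE, hF, hEF, hFE, zero_mul, mul_zero, smul_mul_assoc]
  simp only [add_mul, mul_add, mul_one, one_mul, smul_add, add_smul, two_smul]
  rw [show (3 : ℝ) = 1 + 1 + 1 by norm_num, add_smul, add_smul, one_smul]
  abel

/-- the recursion for the differences -/
lemma rec_d (hE : E * E = 0) (hF : F * F = 0) (hEF : E * F * E = x • E)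
    (hFE : F * E * F = x • F) (m : ℕ) :
    alt (1 + E) (1 + F) (m + 4) - alt (1 + F) (1 + E) (m + 4) =
      (2 + x) • (alt (1 + E) (1 + F) (m + 2) - alt (1 + F) (1 + E) (m + 2)) -
        (alt (1 + E) (1 + F) m - alt (1 + F) (1 + E) m) := by
  have h1 : alt (1 + E) (1 + F) (m + 4) = (2 + x) • alt (1 + E) (1 + F) (m + 2) -
      alt (1 + E) (1 + F) m + (E * F + F * E - x • (1 : A)) := by
    rw [show m + 4 = m + 2 + 2 by ring, alt_two, alt_two, ← mul_assoc,
      sq_rel hE hF hEF hFE, add_mul, sub_mul, (om_mul hE hF hEF hFE m).1, one_mul, smul_mul_assoc]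
  have h2 : alt (1 + F) (1 + E) (m + 4) = (2 + x) • alt (1 + F) (1 + E) (m + 2) -
      alt (1 + F) (1 + E) m + (E * F + F * E - x • (1 : A)) := by
    have h3 := sq_rel hF hE hFE hEF
    rw [add_comm (F * E) (E * F)] at h3
    rw [show m + 4 = m + 2 + 2 by ring, alt_two, alt_two, ← mul_assoc,
      h3, add_mul, sub_mul, (om_mul hE hF hEF hFE m).2, one_mul, smul_mul_assoc]
  rw [h1, h2, smul_sub]
  abel

lemma closed_form (hE : E * E = 0) (hF : F * F = 0) {θ : ℝ} (hx : x = -4 * Real.cos θ ^ 2)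
    (hEF : E * F * E = x • E) (hFE : F * E * F = x • F) (k : ℕ) :
    Real.sin θ • (alt (1 + E) (1 + F) (2 * k + 1) - alt (1 + F) (1 + E) (2 * k + 1)) =
      ((-1) ^ k * Real.sin ((2 * k + 1) * θ)) • (E - F) ∧
    Real.sin (2 * θ) • (alt (1 + E) (1 + F) (2 * k) - alt (1 + F) (1 + E) (2 * k)) =
      ((-1) ^ (k + 1) * Real.sin (2 * k * θ)) • (E * F - F * E) := by
  have key : ∀ k : ℕ, (Real.sin θ • (alt (1 + E) (1 + F) (2 * k + 1) -
      alt (1 + F) (1 + E) (2 * k + 1)) =
      ((-1) ^ k * Real.sin ((2 * k + 1) * θ)) • (E - F) ∧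
    Real.sin (2 * θ) • (alt (1 + E) (1 + F) (2 * k) - alt (1 + F) (1 + E) (2 * k)) =
      ((-1) ^ (k + 1) * Real.sin (2 * k * θ)) • (E * F - F * E)) ∧
    (Real.sin θ • (alt (1 + E) (1 + F) (2 * (k + 1) + 1) -
      alt (1 + F) (1 + E) (2 * (k + 1) + 1)) =
      ((-1) ^ (k + 1) * Real.sin ((2 * ((k + 1 : ℕ) : ℝ) + 1) * θ)) • (E - F) ∧
    Real.sin (2 * θ) • (alt (1 + E) (1 + F) (2 * (k + 1)) - alt (1 + F) (1 + E) (2 * (k + 1))) =
      ((-1) ^ (k + 1 + 1) * Real.sin (2 * ((k + 1 : ℕ) : ℝ) * θ)) • (E * F - F * E)) := by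
    intro k
    induction k with
    | zero =>
      refine ⟨⟨?_, ?_⟩, ⟨?_, ?_⟩⟩
      · simp [alt]
      · simp [alt]
      · have h1 : alt (1 + E) (1 + F) (2 * (0 + 1) + 1) - alt (1 + F) (1 + E) (2 * (0 + 1) + 1) =
            (1 + x) • (E - F) := by
          have : alt (1 + E) (1 + F) 3 - alt (1 + F) (1 + E) 3 =
              (E - F) + (E * F * E - F * E * F) + (E * E - F * F) := by
            simp only [alt, mul_one, add_mul, mul_add, one_mul, mul_assoc]
            abel
          rw [show 2 * (0 + 1) + 1 = 3 by norm_num, this, hE, hF, hEF, hFE, add_smul, one_smul,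
            smul_sub, sub_zero, add_zero]
        rw [h1, smul_smul]
        congr 1
        have h2 : ((2 * ((0 + 1 : ℕ) : ℝ) + 1) * θ) = 3 * θ := by push_cast; ring
        rw [h2, Real.sin_three_mul, hx]
        have h3 := Real.sin_sq_add_cos_sq θ
        linear_combination (-4 * Real.sin θ) * h3
      · have h1 : alt (1 + E) (1 + F) (2 * (0 + 1)) - alt (1 + F) (1 + E) (2 * (0 + 1)) =
            E * F - F * E := by
          simp only [alt, mul_one, add_mul, mul_add, one_mul, show 2 * (0 + 1) = 2 by norm_num]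
          abel
        rw [h1]
        congr 1
        push_cast
        norm_num
    | succ k ih =>
      refine ⟨ih.2, ?_⟩
      have r1 := rec_d hE hF hEF hFE (2 * k + 1)
      have r2 := rec_d hE hF hEF hFE (2 * k)
      have e1 : 2 * k + 1 + 4 = 2 * (k + 1 + 1) + 1 := by ring
      have e2 : 2 * k + 1 + 2 = 2 * (k + 1) + 1 := by ring
      have e3 : 2 * k + 4 = 2 * (k + 1 + 1) := by ring
      have e4 : 2 * k + 2 = 2 * (k + 1) := by ring
      rw [e1, e2] at r1
      rw [e3, e4] at r2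
      have hc : 2 + x = -2 * Real.cos (2 * θ) := by
        rw [hx, Real.cos_two_mul]
        ring
      constructor
      · rw [r1, smul_sub, smul_comm, ih.2.1, ih.1.1, smul_smul, ← sub_smul]
        congr 1
        rw [hc]
        have f1 : (2 * ((k + 1 + 1 : ℕ) : ℝ) + 1) * θ = (2 * ((k + 1 : ℕ) : ℝ) + 1) * θ + 2 * θ := by
          push_cast; ring
        have f2 : (2 * (k : ℝ) + 1) * θ = (2 * ((k + 1 : ℕ) : ℝ) + 1) * θ - 2 * θ := by
          push_cast; ring
        rw [f1, f2, Real.sin_add, Real.sin_sub, pow_succ, pow_succ]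
        ring
      · rw [r2, smul_sub, smul_comm, ih.2.2, ih.1.2, smul_smul, ← sub_smul]
        congr 1
        rw [hc]
        have f1 : 2 * ((k + 1 + 1 : ℕ) : ℝ) * θ = 2 * ((k + 1 : ℕ) : ℝ) * θ + 2 * θ := by
          push_cast; ring
        have f2 : 2 * (k : ℝ) * θ = 2 * ((k + 1 : ℕ) : ℝ) * θ - 2 * θ := by
          push_cast; ring
        rw [f1, f2, Real.sin_add, Real.sin_sub, pow_succ, pow_succ, pow_succ]
        ring
  exact (key k).1

/-- **The braid relation of length `m`.** -/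
theorem braid (hE : E * E = 0) (hF : F * F = 0) {m t : ℕ} (ht : 1 ≤ t) (htm : 2 * t < m)
    (hx : x = -4 * Real.cos (Real.pi * t / m) ^ 2)
    (hEF : E * F * E = x • E) (hFE : F * E * F = x • F) :
    alt (1 + E) (1 + F) m = alt (1 + F) (1 + E) m := by
  have hm : (0 : ℝ) < m := by exact_mod_cast (by omega : 0 < m)
  have hpi := Real.pi_pos
  have ht' : (1 : ℝ) ≤ t := by exact_mod_cast ht
  have htm' : 2 * (t : ℝ) < m := by exact_mod_cast htm
  have h0 : 0 < Real.pi * t / m := by positivity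
  have h1 : Real.pi * t / m < Real.pi / 2 := by
    rw [div_lt_div_iff₀ hm (by norm_num)]
    nlinarith
  have s1 : Real.sin (Real.pi * t / m) ≠ 0 :=
    (Real.sin_pos_of_pos_of_lt_pi h0 (by linarith)).ne'
  have s2 : Real.sin (2 * (Real.pi * t / m)) ≠ 0 :=
    (Real.sin_pos_of_pos_of_lt_pi (by linarith) (by linarith)).ne'
  have s3 : Real.sin (m * (Real.pi * t / m)) = 0 := by
    rw [mul_div_cancel₀ _ hm.ne', mul_comm]
    exact Real.sin_nat_mul_pi t
  rw [← sub_eq_zero]
  rcases Nat.even_or_odd' m with ⟨k, hk | hk⟩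
  · have h2 := (closed_form hE hF hx hEF hFE k).2
    have h3 : Real.sin (2 * k * (Real.pi * t / m)) = 0 := by
      rw [show (2 * (k : ℝ)) = (m : ℝ) by rw [hk]; push_cast; ring]
      exact s3
    rw [h3, mul_zero, zero_smul, ← hk] at h2
    exact (smul_eq_zero.1 h2).resolve_left s2
  · have h2 := (closed_form hE hF hx hEF hFE k).1
    have h3 : Real.sin ((2 * k + 1) * (Real.pi * t / m)) = 0 := by
      rw [show (2 * (k : ℝ) + 1) = (m : ℝ) by rw [hk]; push_cast; ring]
      exact s3
    rw [h3, mul_zero, zero_smul, ← hk] at h2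
    exact (smul_eq_zero.1 h2).resolve_left s1

end

end Pool.Agent.H34.TH
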