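import Mathlib
import Pool.Agent.H34.TH.Dih

/-!
# Products of transvections
-/

set_option autoImplicit false

namespace Pool.Agent.H34.TH

open Polynomial Matrix

variable {N : ℕ}

/-- the matrix with row `i` equal to the row `i` of `c`, and all other rows zero -/
def E (c : Fin N → Fin N → ℝ) (i : Fin N) : Matrix (Fin N) (Fin N) ℝ :=
  Matrix.of fun a b => if a = i then c i b else 0

lemma E_apply (c : Fin N → Fin N → ℝ) (i a b : Fin N) : E c i a b = if a = i then c i b else 0 := rfl

lemma E_mul_apply (c : Fin N → Fin N → ℝ) (i : Fin N) (M : Matrix (Fin N) (Fin N) ℝ) (a b : Fin N) :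
    (E c i * M) a b = if a = i then ∑ k, c i k * M k b else 0 := by
  rw [Matrix.mul_apply]
  split_ifs with h
  · exact Finset.sum_congr rfl fun k _ => by rw [E_apply, if_pos h]
  · exact Finset.sum_eq_zero fun k _ => by rw [E_apply, if_neg h, zero_mul]

lemma E_mul_E (c : Fin N → Fin N → ℝ) (i j : Fin N) :
    E c i * E c j = Matrix.of fun a b => if a = i then c i j * c j b else 0 := by
  ext a b
  rw [E_mul_apply, Matrix.of_apply]
  split_ifs with h
  · rw [Finset.sum_eq_single j]
    · rw [E_apply, if_pos rfl]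
    · intro k _ hk
      rw [E_apply, if_neg hk, mul_zero]
    · intro h2
      exact absurd (Finset.mem_univ _) h2
  · rfl

lemma E_sq {c : Fin N → Fin N → ℝ} {i : Fin N} (h : c i i = 0) : E c i * E c i = 0 := by
  rw [E_mul_E]
  ext a b
  simp [h]

lemma E_three (c : Fin N → Fin N → ℝ) (i j : Fin N) :
    E c i * E c j * E c i = (c i j * c j i) • E c i := by
  rw [mul_assoc, E_mul_E]
  ext a b
  rw [E_mul_apply, Matrix.smul_apply, E_apply]
  split_ifs with h
  · rw [Finset.sum_eq_single j]
    · rw [Matrix.of_apply, if_pos rfl, smul_eq_mul]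
      ring
    · intro k _ hk
      rw [Matrix.of_apply, if_neg hk, mul_zero]
    · intro h2
      exact absurd (Finset.mem_univ _) h2
  · simp

/-- the product of the transvections of a list of syllables -/
def P (c : Fin N → Fin N → ℝ) (L : List (Fin N × ℤ)) : Matrix (Fin N) (Fin N) ℝ :=
  (L.map fun p => 1 + (p.2 : ℝ) • E c p.1).prod

/-- all entries of the family are polynomial functions of degree at most `k` -/
def PolyLE (k : ℕ) (M : ℝ → Matrix (Fin N) (Fin N) ℝ) : Prop :=
  ∀ a b, ∃ p : ℝ[X], p.natDegree ≤ k ∧ ∀ t, M t a b = p.eval t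

lemma PolyLE.mul {k l : ℕ} {M M' : ℝ → Matrix (Fin N) (Fin N) ℝ} (h : PolyLE k M)
    (h' : PolyLE l M') : PolyLE (k + l) (fun t => M t * M' t) := by
  intro a b
  choose p hp hp2 using h
  choose q hq hq2 using h'
  refine ⟨∑ x, p a x * q x b, ?_, fun t => ?_⟩
  · refine natDegree_sum_le_of_forall_le _ _ fun x _ => ?_
    exact natDegree_mul_le.trans (Nat.add_le_add (hp a x) (hq x b))
  · show (M t * M' t) a b = _
    rw [Matrix.mul_apply, eval_finset_sum]
    exact Finset.sum_congr rfl fun x _ => by rw [eval_mul, ← hp2, ← hq2]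

lemma polyLE_one : PolyLE 0 (fun _ => (1 : Matrix (Fin N) (Fin N) ℝ)) := by
  intro a b
  exact ⟨C ((1 : Matrix (Fin N) (Fin N) ℝ) a b), by simp, fun t => by simp⟩

/-- change one coefficient -/
def upd (c : Fin N → Fin N → ℝ) (i j : Fin N) (t : ℝ) : Fin N → Fin N → ℝ :=
  fun a b => if a = i ∧ b = j then t else c a b

lemma polyLE_factor (c : Fin N → Fin N → ℝ) (i j : Fin N) (p : Fin N × ℤ) :
    PolyLE 1 (fun t => 1 + (p.2 : ℝ) • E (upd c i j t) p.1) := by
  intro a b
  by_cases h : a = p.1
  · by_cases h2 : p.1 = i ∧ b = j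
    · refine ⟨C ((1 : Matrix (Fin N) (Fin N) ℝ) a b) + C (p.2 : ℝ) * X, ?_, fun t => ?_⟩
      · refine (natDegree_add_le _ _).trans (max_le (by simp) ?_)
        exact (natDegree_C_mul_le _ _).trans natDegree_X_le
      · simp only [Matrix.add_apply, Matrix.smul_apply, E_apply, if_pos h, upd, if_pos h2,
          smul_eq_mul, eval_add, eval_C, eval_mul, eval_X]
    · refine ⟨C ((1 : Matrix (Fin N) (Fin N) ℝ) a b + (p.2 : ℝ) * c p.1 b), by
        rw [natDegree_C]; exact Nat.zero_le _, fun t => ?_⟩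
      simp only [Matrix.add_apply, Matrix.smul_apply, E_apply, if_pos h, upd, if_neg h2,
          smul_eq_mul, eval_C]
  · refine ⟨C ((1 : Matrix (Fin N) (Fin N) ℝ) a b), by simp, fun t => ?_⟩
    simp only [Matrix.add_apply, Matrix.smul_apply, E_apply, if_neg h, smul_zero, add_zero, eval_C]

lemma polyLE_P (c : Fin N → Fin N → ℝ) (i j : Fin N) (L : List (Fin N × ℤ)) :
    PolyLE L.length (fun t => P (upd c i j t) L) := by
  induction L with
  | nil => exact polyLE_one
  | cons p L ih =>
    have h := (polyLE_factor c i j p).mul ih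
    rw [add_comm] at h
    intro a b
    obtain ⟨q, hq, hq2⟩ := h a b
    refine ⟨q, hq, fun t => ?_⟩
    rw [← hq2]
    show P (upd c i j t) (p :: L) a b = _
    unfold P
    rw [List.map_cons, List.prod_cons]

/-- entries are polynomial functions of degree at most `k` with the given coefficients of degree
`k` -/
def Top (k : ℕ) (M : ℝ → Matrix (Fin N) (Fin N) ℝ) (B : Matrix (Fin N) (Fin N) ℝ) : Prop :=
  ∀ a b, ∃ p : ℝ[X], p.natDegree ≤ k ∧ p.coeff k = B a b ∧ ∀ t, M t a b = p.eval t

lemma Top.mul {k l : ℕ} {M M' : ℝ → Matrix (Fin N) (Fin N) ℝ} {B B' : Matrix (Fin N) (Fin N) ℝ}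
    (h : Top k M B) (h' : Top l M' B') : Top (k + l) (fun t => M t * M' t) (B * B') := by
  intro a b
  choose p hp hp1 hp2 using h
  choose q hq hq1 hq2 using h'
  refine ⟨∑ x, p a x * q x b, ?_, ?_, fun t => ?_⟩
  · refine natDegree_sum_le_of_forall_le _ _ fun x _ => ?_
    exact natDegree_mul_le.trans (Nat.add_le_add (hp a x) (hq x b))
  · rw [finset_sum_coeff, Matrix.mul_apply]
    exact Finset.sum_congr rfl fun x _ => by
      rw [coeff_mul_add_eq_of_natDegree_le (hp a x) (hq x b), hp1, hq1]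
  · show (M t * M' t) a b = _
    rw [Matrix.mul_apply, eval_finset_sum]
    exact Finset.sum_congr rfl fun x _ => by rw [eval_mul, ← hp2, ← hq2]

/-- all coefficients off the diagonal equal to `t` -/
def cst (t : ℝ) : Fin N → Fin N → ℝ := fun a b => if a = b then 0 else t

lemma top_factor (p : Fin N × ℤ) :
    Top 1 (fun t => 1 + (p.2 : ℝ) • E (cst t) p.1) ((p.2 : ℝ) • E (cst 1) p.1) := by
  intro a b
  by_cases h : a = p.1
  · by_cases h2 : p.1 = b
    · refine ⟨C ((1 : Matrix (Fin N) (Fin N) ℝ) a b), by simp, ?_, fun t => ?_⟩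
      · rw [coeff_C]
        simp [E_apply, h, cst, h2]
      · simp only [Matrix.add_apply, Matrix.smul_apply, E_apply, if_pos h, cst, if_pos h2,
          smul_zero, add_zero, eval_C]
    · refine ⟨C ((1 : Matrix (Fin N) (Fin N) ℝ) a b) + C (p.2 : ℝ) * X, ?_, ?_, fun t => ?_⟩
      · refine (natDegree_add_le _ _).trans (max_le (by simp) ?_)
        exact (natDegree_C_mul_le _ _).trans natDegree_X_le
      · rw [coeff_add, coeff_C_mul, coeff_X_one, coeff_C]
        simp [E_apply, h, cst, h2]
      · simp only [Matrix.add_apply, Matrix.smul_apply, E_apply, if_pos h, cst, if_neg h2,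
          smul_eq_mul, eval_add, eval_C, eval_mul, eval_X]
  · refine ⟨C ((1 : Matrix (Fin N) (Fin N) ℝ) a b), by simp, ?_, fun t => ?_⟩
    · rw [coeff_C]
      simp [E_apply, h]
    · simp only [Matrix.add_apply, Matrix.smul_apply, E_apply, if_neg h, smul_zero, add_zero,
        eval_C]

lemma top_P (L : List (Fin N × ℤ)) :
    Top L.length (fun t => P (cst t) L) (L.map fun p => (p.2 : ℝ) • E (cst 1) p.1).prod := by
  induction L with
  | nil =>
    intro a b
    exact ⟨C ((1 : Matrix (Fin N) (Fin N) ℝ) a b), by simp, by simp,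
      fun t => by simp [P]⟩
  | cons p L ih =>
    have h := (top_factor p).mul ih
    rw [add_comm] at h
    intro a b
    obtain ⟨q, hq, hq1, hq2⟩ := h a b
    refine ⟨q, hq, ?_, fun t => ?_⟩
    · rw [List.map_cons, List.prod_cons]
      exact hq1
    · rw [← hq2]
      show P (cst t) (p :: L) a b = _
      unfold P
      rw [List.map_cons, List.prod_cons]

/-- the product of the leading terms -/
lemma lead {z : Fin N} : ∀ (L : List (Fin N × ℤ)) (p : Fin N × ℤ),
    List.IsChain (fun p q : Fin N × ℤ => p.1 ≠ q.1) (p :: L) → (∀ q ∈ p :: L, q.2 ≠ 0 ∧ q.1 ≠ z) →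
    (((p :: L).map fun p => (p.2 : ℝ) • E (cst 1) p.1).prod) p.1 z ≠ 0 ∧
      ∀ a, a ≠ p.1 → ∀ b, (((p :: L).map fun p => (p.2 : ℝ) • E (cst 1) p.1).prod) a b = 0 := by
  intro L
  induction L with
  | nil =>
    intro p _ h
    obtain ⟨h1, h2⟩ := h p (by simp)
    constructor
    · simp only [List.map_cons, List.map_nil, List.prod_cons, List.prod_nil, mul_one,
        Matrix.smul_apply, E_apply, if_true, cst, if_neg h2, smul_eq_mul]
      exact_mod_cast h1
    · intro a ha b
      simp [E_apply, ha]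
  | cons q L ih =>
    intro p hc h
    rw [List.isChain_cons_cons] at hc
    obtain ⟨h1, h2⟩ := ih q hc.2 (fun r hr => h r (List.mem_cons_of_mem _ hr))
    obtain ⟨h3, h4⟩ := h p (by simp)
    have e : ∀ a b, (((p :: q :: L).map fun p => (p.2 : ℝ) • E (cst 1) p.1).prod) a b =
        if a = p.1 then (p.2 : ℝ) *
          (((q :: L).map fun p => (p.2 : ℝ) • E (cst 1) p.1).prod) q.1 b else 0 := by
      intro a b
      rw [List.map_cons, List.prod_cons, smul_mul_assoc, Matrix.smul_apply, E_mul_apply]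
      split_ifs with ha
      · rw [Finset.sum_eq_single q.1]
        · rw [cst, if_neg hc.1, one_mul, smul_eq_mul]
        · intro k _ hk
          rw [h2 k hk, mul_zero]
        · intro h5
          exact absurd (Finset.mem_univ _) h5
      · exact smul_zero _
    constructor
    · rw [e, if_pos rfl]
      exact mul_ne_zero (by exact_mod_cast h3) h1
    · intro a ha b
      rw [e, if_neg ha]

/-- For a suitable number `t ≠ 0` the entry is not zero. -/
lemma exists_start {z : Fin N} {L : List (Fin N × ℤ)} {p : Fin N × ℤ}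
    (hc : List.IsChain (fun p q : Fin N × ℤ => p.1 ≠ q.1) (p :: L))
    (h : ∀ q ∈ p :: L, q.2 ≠ 0 ∧ q.1 ≠ z) :
    ∃ t : ℝ, t ≠ 0 ∧ P (cst t) (p :: L) p.1 z ≠ 0 := by
  obtain ⟨q, hq, hq1, hq2⟩ := top_P (p :: L) p.1 z
  have h1 : q ≠ 0 := by
    rintro rfl
    rw [coeff_zero] at hq1
    exact (lead L p hc h).1 hq1.symm
  by_contra hcon
  push Not at hcon
  have h2 : ∀ t : ℝ, t ≠ 0 → q.eval t = 0 := fun t ht => by rw [← hq2]; exact hcon t ht
  refine h1 (Polynomial.eq_zero_of_infinite_isRoot q ?_)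
  refine Set.Infinite.mono (s := {t : ℝ | t ≠ 0}) (fun t ht => h2 t ht) ?_
  have : {t : ℝ | t ≠ 0} = ({0} : Set ℝ)ᶜ := by ext; simp
  rw [this]
  exact (Set.finite_singleton _).infinite_compl

end Pool.Agent.H34.TH
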