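import Mathlib
import Pool.Agent.H34.TH.Mat

/-!
# A representation of the Artin group in which a given word is not trivial
-/

set_option autoImplicit false

namespace Pool.Agent.H34.TH

open Polynomial Matrix
open Pool.Agent.Q324.SC.Art

variable {N : ℕ}

lemma upd_self (c : Fin N → Fin N → ℝ) (i j : Fin N) : upd c i j (c i j) = c := by
  funext a b
  unfold upd
  split_ifs with h
  · rw [h.1, h.2]
  · rfl

/-- the condition for the label `m` -/
def Ok (m : ℕ) (c : Fin N → Fin N → ℝ) (i j : Fin N) : Prop :=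
  2 ≤ m → ∃ t : ℕ, 1 ≤ t ∧ 2 * t < m ∧ c i j * c j i = -4 * Real.cos (Real.pi * t / m) ^ 2

lemma cos_inj {m t t' : ℕ} (ht : 2 * t < m) (ht' : 2 * t' < m)
    (h : Real.cos (Real.pi * t / m) ^ 2 = Real.cos (Real.pi * t' / m) ^ 2) : t = t' := by
  have hm : (0 : ℝ) < m := by exact_mod_cast (by omega : 0 < m)
  have hpi := Real.pi_pos
  have key : ∀ t : ℕ, 2 * t < m → 0 ≤ Real.pi * t / m ∧ Real.pi * t / m < Real.pi / 2 := by
    intro t ht
    have ht' : 2 * (t : ℝ) < m := by exact_mod_cast ht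
    refine ⟨by positivity, ?_⟩
    rw [div_lt_div_iff₀ hm (by norm_num)]
    nlinarith
  obtain ⟨a1, a2⟩ := key t ht
  obtain ⟨b1, b2⟩ := key t' ht'
  have c1 : 0 ≤ Real.cos (Real.pi * t / m) :=
    (Real.cos_pos_of_mem_Ioo ⟨by linarith, a2⟩).le
  have c2 : 0 ≤ Real.cos (Real.pi * t' / m) :=
    (Real.cos_pos_of_mem_Ioo ⟨by linarith, b2⟩).le
  have h1 : Real.cos (Real.pi * t / m) = Real.cos (Real.pi * t' / m) := (sq_eq_sq₀ c1 c2).1 h
  have h2 := Real.injOn_cos ⟨a1, by linarith⟩ ⟨b1, by linarith⟩ h1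
  have h3 : Real.pi * t = Real.pi * t' := by
    field_simp at h2
    nlinarith
  have h4 : (t : ℝ) = t' := mul_left_cancel₀ hpi.ne' h3
  exact_mod_cast h4

lemma step {m : ℕ} {L : List (Fin N × ℤ)} {p z : Fin N} {c : Fin N → Fin N → ℝ}
    (hm : m ≤ 1 ∨ 2 * L.length + 3 ≤ m) {i j : Fin N} (hne : i ≠ j) (hij : c i j ≠ 0)
    (hc : P c L p z ≠ 0) :
    ∃ t : ℝ, Ok m (upd c j i t) i j ∧ P (upd c j i t) L p z ≠ 0 := by
  rcases hm with hm | hm
  · refine ⟨c j i, fun h => by omega, ?_⟩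
    rw [upd_self]
    exact hc
  · obtain ⟨q, hq, hq2⟩ := polyLE_P c j i L p z
    have hq0 : q ≠ 0 := by
      rintro rfl
      have := hq2 (c j i)
      simp only [upd_self, eval_zero] at this
      exact hc this
    obtain ⟨v, hv⟩ : ∃ v : ℕ → ℝ, v = fun t : ℕ => -4 * Real.cos (Real.pi * t / m) ^ 2 / c i j :=
      ⟨_, rfl⟩
    have hinj : Set.InjOn v (Finset.Icc 1 (L.length + 1) : Finset ℕ) := by
      intro t ht t' ht' htt
      rw [Finset.mem_coe, Finset.mem_Icc] at ht ht'
      rw [hv] at htt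
      beta_reduce at htt
      have h1 := (div_left_inj' hij).1 htt
      refine cos_inj (m := m) (by omega) (by omega) ?_
      linarith
    have h1 : ∃ t ∈ Finset.Icc 1 (L.length + 1), q.eval (v t) ≠ 0 := by
      by_contra hcon
      push Not at hcon
      refine hq0 (Polynomial.eq_zero_of_natDegree_lt_card_of_eval_eq_zero' q
        ((Finset.Icc 1 (L.length + 1)).image v) ?_ ?_)
      · intro x hx
        obtain ⟨t, ht, rfl⟩ := Finset.mem_image.1 hx
        exact hcon t ht
      · rw [Finset.card_image_of_injOn hinj, Nat.card_Icc]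
        omega
    obtain ⟨t, ht, ht2⟩ := h1
    rw [Finset.mem_Icc] at ht
    refine ⟨v t, fun _ => ⟨t, ht.1, by omega, ?_⟩, ?_⟩
    · have e1 : upd c j i (v t) i j = c i j := by
        unfold upd
        rw [if_neg (fun h => hne h.1)]
      have e2 : upd c j i (v t) j i = v t := by
        unfold upd
        rw [if_pos ⟨rfl, rfl⟩]
      rw [e1, e2, hv]
      field_simp
    · have h5 := hq2 (v t)
      beta_reduce at h5
      rw [h5]
      exact ht2

lemma greedy {L : List (Fin N × ℤ)} {p z : Fin N} (m : Fin N → Fin N → ℕ)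
    (hm : ∀ i j, m i j ≤ 1 ∨ 2 * L.length + 3 ≤ m i j) {t0 : ℝ} (ht0 : t0 ≠ 0)
    (h0 : P (cst t0) L p z ≠ 0) (S : Finset (Fin N × Fin N)) :
    ∃ c : Fin N → Fin N → ℝ, (∀ i, c i i = 0) ∧ (∀ i j, i < j → c i j ≠ 0) ∧ P c L p z ≠ 0 ∧
      ∀ x ∈ S, x.1 < x.2 → Ok (m x.1 x.2) c x.1 x.2 := by
  classical
  induction S using Finset.induction_on with
  | empty =>
    refine ⟨cst t0, fun i => by simp [cst], fun i j hij => ?_, h0, fun x hx => by simp at hx⟩
    rw [cst, if_neg hij.ne]
    exact ht0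
  | insert x S hx ih =>
    obtain ⟨c, h1, h2, h3, h4⟩ := ih
    by_cases hlt : x.1 < x.2
    · obtain ⟨t, ht, ht2⟩ := step (hm x.1 x.2) hlt.ne (h2 _ _ hlt) h3
      refine ⟨upd c x.2 x.1 t, ?_, ?_, ht2, ?_⟩
      · intro i
        unfold upd
        rw [if_neg (fun h => hlt.ne (h.2.symm.trans h.1))]
        exact h1 i
      · intro i j hij
        unfold upd
        rw [if_neg (fun h => by rw [h.1, h.2] at hij; exact absurd hij (not_lt.2 hlt.le))]
        exact h2 i j hij
      · intro y hy hy2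
        rcases Finset.mem_insert.1 hy with rfl | hy
        · exact ht
        · have hne : y ≠ x := fun h => hx (h ▸ hy)
          intro hmy
          obtain ⟨t', ht', ht'', ht3⟩ := h4 y hy hy2 hmy
          refine ⟨t', ht', ht'', ?_⟩
          have e1 : upd c x.2 x.1 t y.1 y.2 = c y.1 y.2 := by
            unfold upd
            rw [if_neg (fun h => by rw [h.1, h.2] at hy2; exact absurd hy2 (not_lt.2 hlt.le))]
          have e2 : upd c x.2 x.1 t y.2 y.1 = c y.2 y.1 := by
            unfold upd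
            rw [if_neg (fun h => hne (Prod.ext h.2 h.1))]
          rw [e1, e2]
          exact ht3
    · refine ⟨c, h1, h2, h3, fun y hy hy2 => ?_⟩
      rcases Finset.mem_insert.1 hy with rfl | hy
      · exact absurd hy2 hlt
      · exact h4 y hy hy2

/-- the transvection as a unit -/
def U (c : Fin N → Fin N → ℝ) (i : Fin N) (h : c i i = 0) : (Matrix (Fin N) (Fin N) ℝ)ˣ where
  val := 1 + E c i
  inv := 1 - E c i
  val_inv := by
    have := E_sq h
    rw [add_mul, one_mul, mul_sub, mul_one, this]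
    abel
  inv_val := by
    have := E_sq h
    rw [sub_mul, one_mul, mul_add, mul_one, this]
    abel

lemma U_zpow (c : Fin N → Fin N → ℝ) (i : Fin N) (h : c i i = 0) (a : ℤ) :
    (((U c i h) ^ a : (Matrix (Fin N) (Fin N) ℝ)ˣ) : Matrix (Fin N) (Fin N) ℝ) =
      1 + (a : ℝ) • E c i := by
  have hs := E_sq h
  induction a using Int.induction_on with
  | zero => simp
  | succ a ih =>
    rw [_root_.zpow_add_one, Units.val_mul, ih]
    show (1 + ((a : ℤ) : ℝ) • E c i) * (1 + E c i) = _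
    rw [add_mul, one_mul, mul_add, mul_one, smul_mul_assoc, hs, smul_zero, add_zero]
    push_cast
    rw [add_smul, one_smul]
    abel
  | pred a ih =>
    rw [_root_.zpow_sub_one, Units.val_mul, ih]
    show (1 + ((-(a : ℤ) : ℤ) : ℝ) • E c i) * (1 - E c i) = _
    rw [add_mul, one_mul, mul_sub, mul_one, smul_mul_assoc, hs, smul_zero, sub_zero]
    push_cast
    rw [sub_smul, one_smul]
    abel

/-- the value of a list of syllables -/
def sval {G : Type} [Group G] (g : ℕ → G) (L : List (ℕ × ℤ)) : G :=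
  (L.map fun p => g p.1 ^ p.2).prod

lemma sval_U {n : ℕ} (c : Fin (n + 1) → Fin (n + 1) → ℝ) (h : ∀ i, c i i = 0)
    (L : List (ℕ × ℤ)) :
    ((sval (fun i => U c (Fin.ofNat (n + 1) i) (h _)) L : (Matrix _ _ ℝ)ˣ) :
      Matrix (Fin (n + 1)) (Fin (n + 1)) ℝ) =
      P c (L.map fun p => (Fin.ofNat (n + 1) p.1, p.2)) := by
  induction L with
  | nil => simp [sval, P]
  | cons p L ih =>
    unfold sval P at ih ⊢
    rw [List.map_cons, List.prod_cons, Units.val_mul, ih, U_zpow, List.map_cons, List.map_cons,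
      List.prod_cons]

/-- **Words in Artin groups with large labels.** A word with `k ≥ 1` syllables is not trivial if all
labels are infinite or at least `2 k + 3`. -/
theorem sval_ne_one {n : ℕ} {l : List ℕ} {p : ℕ × ℤ} {L : List (ℕ × ℤ)}
    (hc : List.IsChain (fun p q : ℕ × ℤ => p.1 ≠ q.1) (p :: L))
    (h : ∀ q ∈ p :: L, q.2 ≠ 0 ∧ q.1 < n)
    (hl : ∀ i j, i < j → j < n → lab l i j ≤ 1 ∨ 2 * (p :: L).length + 3 ≤ lab l i j) :
    sval (gen n l) (p :: L) ≠ 1 := by
  obtain ⟨Lf, hLf⟩ : ∃ Lf : List (Fin (n + 1) × ℤ),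
    Lf = (p :: L).map fun p => (Fin.ofNat (n + 1) p.1, p.2) := ⟨_, rfl⟩
  have hval : ∀ i, i < n → ((Fin.ofNat (n + 1) i : Fin (n + 1)) : ℕ) = i := by
    intro i hi
    rw [Fin.ofNat_eq_cast, Fin.val_natCast, Nat.mod_eq_of_lt (by omega)]
  have hcf : List.IsChain (fun p q : Fin (n + 1) × ℤ => p.1 ≠ q.1) Lf := by
    rw [hLf, List.isChain_map]
    have h1 : List.IsChain (fun a b : ℕ × ℤ => (a.1 ≠ b.1 ∧ a.1 < n ∧ b.1 < n)) (p :: L) := by
      have h2 : ∀ M : List (ℕ × ℤ), List.IsChain (fun p q : ℕ × ℤ => p.1 ≠ q.1) M →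
          (∀ q ∈ M, q.1 < n) → List.IsChain (fun a b : ℕ × ℤ => (a.1 ≠ b.1 ∧ a.1 < n ∧ b.1 < n)) M := by
        intro M
        induction M with
        | nil => intro _ _; exact List.IsChain.nil
        | cons a M ih =>
          intro h3 h4
          cases M with
          | nil => exact List.IsChain.singleton _
          | cons b M =>
            rw [List.isChain_cons_cons] at h3 ⊢
            exact ⟨⟨h3.1, h4 a (by simp), h4 b (by simp)⟩,
              ih h3.2 fun q hq => h4 q (List.mem_cons_of_mem _ hq)⟩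
      exact h2 _ hc fun q hq => (h q hq).2
    refine h1.imp ?_
    intro a b hab heq
    apply hab.1
    have h5 : (Fin.ofNat (n + 1) a.1 : Fin (n + 1)) = Fin.ofNat (n + 1) b.1 := heq
    have h6 := congrArg (fun x : Fin (n + 1) => (x : ℕ)) h5
    beta_reduce at h6
    rwa [hval _ hab.2.1, hval _ hab.2.2] at h6
  have hf : ∀ q ∈ Lf, q.2 ≠ 0 ∧ q.1 ≠ Fin.last n := by
    intro q hq
    rw [hLf] at hq
    obtain ⟨r, hr, rfl⟩ := List.mem_map.1 hq
    refine ⟨(h r hr).1, fun heq => ?_⟩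
    have h6 := congrArg (fun x : Fin (n + 1) => (x : ℕ)) heq
    beta_reduce at h6
    rw [hval _ (h r hr).2, Fin.val_last] at h6
    have := (h r hr).2
    omega
  rw [hLf, List.map_cons] at hcf hf
  obtain ⟨t0, ht0, h0⟩ := exists_start hcf hf
  obtain ⟨c, c1, c2, c3, c4⟩ := greedy (fun i j : Fin (n + 1) => if i < j ∧ j.1 < n then lab l i j
    else 0) (L := (Fin.ofNat (n + 1) p.1, p.2) :: L.map fun p => (Fin.ofNat (n + 1) p.1, p.2))
    (z := Fin.last n) (by
      intro i j
      split_ifs with hij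
      · have := hl i j hij.1 hij.2
        simpa using this
      · left
        omega) ht0 h0 Finset.univ
  obtain ⟨φ, hφ⟩ := exists_hom (n := n) (l := l)
    (fun i => U c (Fin.ofNat (n + 1) i) (c1 _)) (by
      intro i j hij hj hm
      obtain ⟨t, ht, ht2, ht3⟩ := c4 (⟨i, by omega⟩, ⟨j, by omega⟩) (Finset.mem_univ _) hij (by
        rw [if_pos ⟨hij, hj⟩]
        exact hm)
      rw [if_pos ⟨hij, hj⟩] at ht2 ht3
      have ei : (Fin.ofNat (n + 1) i : Fin (n + 1)) = ⟨i, by omega⟩ :=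
        Fin.ext (hval i (by omega))
      have ej : (Fin.ofNat (n + 1) j : Fin (n + 1)) = ⟨j, by omega⟩ :=
        Fin.ext (hval j (by omega))
      refine Units.ext ?_
      have e1 := map_alt (Units.coeHom (Matrix (Fin (n + 1)) (Fin (n + 1)) ℝ)) (lab l i j)
      rw [Units.coeHom] at e1
      simp only [MonoidHom.coe_mk, OneHom.coe_mk] at e1
      rw [e1, e1]
      show alt (1 + E c (Fin.ofNat (n + 1) i)) (1 + E c (Fin.ofNat (n + 1) j)) _ =
        alt (1 + E c (Fin.ofNat (n + 1) j)) (1 + E c (Fin.ofNat (n + 1) i)) _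
      rw [ei, ej]
      refine braid (E_sq (c1 _)) (E_sq (c1 _)) ht ht2 ht3 (E_three _ _ _) ?_
      rw [E_three, mul_comm])
  intro h1
  have h2 : φ (sval (gen n l) (p :: L)) = sval (fun i => U c (Fin.ofNat (n + 1) i) (c1 _))
      (p :: L) := by
    unfold sval
    rw [map_list_prod, List.map_map]
    congr 1
    refine List.map_congr_left fun x hx => ?_
    simp only [Function.comp, map_zpow]
    rw [hφ x.1 (h x hx).2]
  rw [h1, map_one] at h2
  have h3 := congrArg (fun u : (Matrix (Fin (n + 1)) (Fin (n + 1)) ℝ)ˣ =>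
    (u : Matrix (Fin (n + 1)) (Fin (n + 1)) ℝ)) h2
  beta_reduce at h3
  rw [sval_U c c1, List.map_cons, Units.val_one] at h3
  rw [← h3] at c3
  apply c3
  rw [Matrix.one_apply_ne]
  exact (hf _ (by simp)).2

end Pool.Agent.H34.TH
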