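import Mathlib
import Pool.Agent.H34.TH.Gr

/-!
# Words which are not trivial in the free group, in Artin groups with large labels
-/

set_option autoImplicit false

namespace Pool.Agent.H34.TH

open Pool.Agent.Q324.SC Pool.Agent.Q324.SC.Art
open Pool.Agent.Q324.SC.Mat (tri two_tri tri_mono tri_succ)

/-! ### syllables -/

/-- multiplication with a syllable from the left -/
def push (p : ℕ × ℤ) : List (ℕ × ℤ) → List (ℕ × ℤ)
  | [] => [p]
  | q :: L => if p.1 = q.1 then (if p.2 + q.2 = 0 then L else (p.1, p.2 + q.2) :: L)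
      else p :: q :: L

lemma push_cons (p q : ℕ × ℤ) (L : List (ℕ × ℤ)) : push p (q :: L) =
    if p.1 = q.1 then (if p.2 + q.2 = 0 then L else (p.1, p.2 + q.2) :: L) else p :: q :: L := rfl

/-- the syllables of the reduced word -/
def norm : List (ℕ × Bool) → List (ℕ × ℤ)
  | [] => []
  | x :: w => push (x.1, if x.2 then 1 else -1) (norm w)

lemma sval_cons {G : Type} [Group G] (g : ℕ → G) (p : ℕ × ℤ) (L : List (ℕ × ℤ)) :
    sval g (p :: L) = g p.1 ^ p.2 * sval g L := by
  simp [sval]

lemma sval_push {G : Type} [Group G] (g : ℕ → G) (p : ℕ × ℤ) (L : List (ℕ × ℤ)) :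
    sval g (push p L) = g p.1 ^ p.2 * sval g L := by
  cases L with
  | nil => rw [push, sval_cons]
  | cons q L =>
    rw [push_cons]
    split_ifs with h1 h2
    · rw [sval_cons, ← mul_assoc, h1, ← zpow_add, h2, zpow_zero, one_mul]
    · rw [sval_cons, sval_cons, ← mul_assoc, h1, zpow_add]
    · rw [sval_cons]

lemma val_cons {G : Type} [Group G] (g : ℕ → G) (x : ℕ × Bool) (w : List (ℕ × Bool)) :
    val g (x :: w) = (if x.2 then g x.1 else (g x.1)⁻¹) * val g w := by
  simp [val]

lemma sval_norm {G : Type} [Group G] (g : ℕ → G) (w : List (ℕ × Bool)) :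
    sval g (norm w) = val g w := by
  induction w with
  | nil => simp [norm, sval, val]
  | cons x w ih =>
    rw [norm, sval_push, ih, val_cons]
    cases x.2 <;> simp

lemma push_length (p : ℕ × ℤ) (L : List (ℕ × ℤ)) : (push p L).length ≤ L.length + 1 := by
  cases L with
  | nil => simp [push]
  | cons q L =>
    rw [push_cons]
    split_ifs <;> simp only [List.length_cons] <;> omega

lemma norm_length (w : List (ℕ × Bool)) : (norm w).length ≤ w.length := by
  induction w with
  | nil => simp [norm]
  | cons x w ih =>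
    rw [norm, List.length_cons]
    exact (push_length _ _).trans (by omega)

/-- a reduced list of syllables with letters less than `n` -/
def Good (n : ℕ) (L : List (ℕ × ℤ)) : Prop :=
  List.IsChain (fun p q : ℕ × ℤ => p.1 ≠ q.1) L ∧ ∀ q ∈ L, q.2 ≠ 0 ∧ q.1 < n

lemma Good.tail {n : ℕ} {p : ℕ × ℤ} {L : List (ℕ × ℤ)} (h : Good n (p :: L)) : Good n L := by
  refine ⟨?_, fun q hq => h.2 q (List.mem_cons_of_mem _ hq)⟩
  cases L with
  | nil => exact List.IsChain.nil
  | cons q L => exact (List.isChain_cons_cons.1 h.1).2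

lemma Good.push {n : ℕ} {L : List (ℕ × ℤ)} (h : Good n L) {p : ℕ × ℤ} (hp : p.2 ≠ 0)
    (hn : p.1 < n) : Good n (push p L) := by
  cases L with
  | nil =>
    refine ⟨List.IsChain.singleton _, fun q hq => ?_⟩
    rw [TH.push, List.mem_singleton] at hq
    rw [hq]
    exact ⟨hp, hn⟩
  | cons q L =>
    rw [push_cons]
    split_ifs with h1 h2
    · exact h.tail
    · refine ⟨?_, fun r hr => ?_⟩
      · cases L with
        | nil => exact List.IsChain.singleton _
        | cons r L =>
          have h3 := List.isChain_cons_cons.1 h.1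
          rw [List.isChain_cons_cons]
          exact ⟨by rw [h1]; exact h3.1, h3.2⟩
      · rcases List.mem_cons.1 hr with rfl | hr
        · exact ⟨h2, hn⟩
        · exact h.tail.2 r hr
    · refine ⟨List.isChain_cons_cons.2 ⟨h1, h.1⟩, fun r hr => ?_⟩
      rcases List.mem_cons.1 hr with rfl | hr
      · exact ⟨hp, hn⟩
      · exact h.2 r hr

lemma norm_good {n : ℕ} {w : List (ℕ × Bool)} (h : ∀ x ∈ w, x.1 < n) : Good n (norm w) := by
  induction w with
  | nil => exact ⟨List.IsChain.nil, by simp [norm]⟩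
  | cons x w ih =>
    rw [norm]
    refine (ih fun y hy => h y (List.mem_cons_of_mem _ hy)).push ?_ (h x (by simp))
    split_ifs <;> simp

/-! ### free reduction -/

/-- free reduction -/
def red (w : List (ℕ × Bool)) : List (ℕ × Bool) := FreeGroup.reduce w

lemma val_mk {G : Type} [Group G] (g : ℕ → G) (w : List (ℕ × Bool)) :
    val g w = FreeGroup.lift g (FreeGroup.mk w) := by
  rw [FreeGroup.lift_mk]
  unfold val
  congr 1
  refine List.map_congr_left fun x _ => ?_
  cases x.2 <;> simp

lemma mk_eq_one {w : List (ℕ × Bool)} : FreeGroup.mk w = 1 ↔ red w = [] := by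
  unfold red
  rw [← FreeGroup.toWord_mk, FreeGroup.toWord_eq_nil_iff]

lemma val_of_red {G : Type} [Group G] (g : ℕ → G) {w : List (ℕ × Bool)} (h : red w = []) :
    val g w = 1 := by
  rw [val_mk, mk_eq_one.2 h, map_one]

lemma red_of_norm {w : List (ℕ × Bool)} (h : norm w = []) : red w = [] := by
  rw [← mk_eq_one]
  have h1 : val (FreeGroup.of : ℕ → FreeGroup ℕ) w = 1 := by
    rw [← sval_norm, h]
    simp [sval]
  rw [val_mk, FreeGroup.lift_of_eq_id] at h1
  exact h1

/-- A word which is trivial in an Artin group with large labels is trivial in the free group. -/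
theorem red_of_wp {n : ℕ} {l : List ℕ} {w : List (ℕ × Bool)} (h : WP (n, l, w))
    (hl : ∀ i j, i < j → j < n → lab l i j ≤ 1 ∨ 2 * w.length + 3 ≤ lab l i j) : red w = [] := by
  refine red_of_norm ?_
  obtain ⟨hg1, hg2⟩ := norm_good (n := n) (w := w) h.1.2
  have hlen := norm_length w
  have hv : sval (gen n l) (norm w) = 1 := by
    rw [sval_norm]
    exact h.2
  cases hN : norm w with
  | nil => rfl
  | cons p L =>
    exfalso
    rw [hN] at hg1 hg2 hlen hv
    refine sval_ne_one hg1 hg2 (fun i j hij hj => ?_) hv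
    rcases hl i j hij hj with h1 | h1
    · exact Or.inl h1
    · exact Or.inr (by omega)

/-! ### computability of the free reduction -/

lemma red_eq (w : List (ℕ × Bool)) : red w =
    w.foldr (fun x L => if L.head? = some (x.1, !x.2) then L.tail else x :: L) [] := by
  unfold red
  induction w with
  | nil => rfl
  | cons x w ih =>
    rw [List.foldr_cons, ← ih, FreeGroup.reduce.cons]
    cases FreeGroup.reduce w with
    | nil => simp
    | cons y L =>
      simp only [List.head?_cons, Option.some.injEq, List.tail_cons]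
      by_cases h : x.1 = y.1 ∧ x.2 = !y.2
      · rw [if_pos h, if_pos]
        rw [Prod.ext_iff]
        exact ⟨h.1.symm, by rw [h.2, Bool.not_not]⟩
      · rw [if_neg h, if_neg]
        rintro rfl
        exact h ⟨rfl, by simp⟩

theorem red_primrec : Primrec red := by
  have h1 : Primrec (fun x : List (ℕ × Bool) × ((ℕ × Bool) × List (ℕ × Bool)) =>
      if x.2.2.head? = some (x.2.1.1, !x.2.1.2) then x.2.2.tail else x.2.1 :: x.2.2) := by
    refine Primrec.ite ?_ ?_ ?_
    · refine Primrec.eq.comp (Primrec.list_head?.comp (Primrec.snd.comp Primrec.snd)) ?_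
      refine Primrec.option_some.comp (Primrec.pair ?_ ?_)
      · exact Primrec.fst.comp (Primrec.fst.comp Primrec.snd)
      · exact Primrec.not.comp (Primrec.snd.comp (Primrec.fst.comp Primrec.snd))
    · exact Primrec.list_tail.comp (Primrec.snd.comp Primrec.snd)
    · exact Primrec.list_cons.comp (Primrec.fst.comp Primrec.snd) (Primrec.snd.comp Primrec.snd)
  have h2 := Primrec.list_foldr (f := fun w : List (ℕ × Bool) => w)
    (g := fun _ => ([] : List (ℕ × Bool)))
    (h := fun (_ : List (ℕ × Bool)) (x : (ℕ × Bool) × List (ℕ × Bool)) =>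
      if x.2.head? = some (x.1.1, !x.1.2) then x.2.tail else x.1 :: x.2)
    Primrec.id (Primrec.const []) h1
  exact h2.of_eq fun w => (red_eq w).symm

/-! ### the algorithm -/

instance decValid : DecidablePred Valid := fun p => by
  unfold Valid
  infer_instance

/-- the algorithm: is the word trivial in the free group? -/
def alg (p : Inp) : Bool := decide (Valid p) && decide (red p.2.2 = [])

theorem alg_comp : Computable alg := by
  classical
  have h1 : Primrec (fun p : Inp => decide (Valid p)) := by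
    have := valid_primrec.decide
    exact this.of_eq fun p => by simp
  have h2 : Primrec (fun p : Inp => decide (red p.2.2 = [])) := by
    have h3 : PrimrecPred (fun p : Inp => red p.2.2 = []) :=
      Primrec.eq.comp (red_primrec.comp (Primrec.snd.comp Primrec.snd)) (Primrec.const [])
    have := h3.decide
    exact this.of_eq fun p => by simp
  exact (Primrec.and.comp h1 h2).to_comp

/-- there are no wrong positive answers -/
lemma alg_sound {p : Inp} (h : alg p = true) : WP p := by
  unfold alg at h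
  rw [Bool.and_eq_true, decide_eq_true_eq, decide_eq_true_eq] at h
  exact ⟨h.1, val_of_red _ h.2⟩

lemma alg_right {n : ℕ} {l : List ℕ} {w : List (ℕ × Bool)}
    (hl : ∀ i j, i < j → j < n → lab l i j ≤ 1 ∨ 2 * w.length + 3 ≤ lab l i j) :
    alg (n, l, w) = true ↔ WP (n, l, w) := by
  refine ⟨alg_sound, fun h => ?_⟩
  unfold alg
  rw [Bool.and_eq_true, decide_eq_true_eq, decide_eq_true_eq]
  exact ⟨h.1, red_of_wp h hl⟩

/-! ### counting -/

lemma count {T H c s : ℕ} (hs : s < T) :
    {l : List ℕ | (l.length = T ∧ ∀ x ∈ l, x ≤ H) ∧ 2 ≤ l.getD s 0 ∧ l.getD s 0 < c + 2}.encard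
      ≤ ((c * (H + 1) ^ (T - 1) : ℕ) : ℕ∞) := by
  classical
  obtain ⟨S, hS⟩ : ∃ S : Fin T → Finset ℕ, S = Function.update (fun _ => Finset.range (H + 1))
    ⟨s, hs⟩ (Finset.Ico 2 (c + 2)) := ⟨_, rfl⟩
  have h1 : (Fintype.piFinset S).card = c * (H + 1) ^ (T - 1) := by
    rw [Fintype.card_piFinset]
    have h2 : (fun i => (S i).card) = Function.update (fun _ => H + 1) ⟨s, hs⟩ c := by
      funext i
      rw [hS]
      by_cases h : i = ⟨s, hs⟩
      · subst h
        simp
      · rw [Function.update_of_ne h, Function.update_of_ne h]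
        simp
    rw [h2, Finset.prod_update_of_mem (Finset.mem_univ _)]
    congr 1
    rw [Finset.prod_const]
    congr 1
    rw [Finset.card_sdiff_of_subset (by simp)]
    simp
  refine (Set.encard_le_encard (t := (List.ofFn (n := T)) '' (Fintype.piFinset S : Set (Fin T → ℕ)))
    ?_).trans ((Set.encard_image_le _ _).trans ?_)
  · rintro l ⟨⟨hl1, hl2⟩, hl3, hl4⟩
    subst hl1
    refine ⟨fun i => l[i.1], ?_, ?_⟩
    · rw [Finset.mem_coe, Fintype.mem_piFinset]
      intro i
      rw [hS]
      by_cases h : i = ⟨s, hs⟩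
      · subst h
        rw [Function.update_self, Finset.mem_Ico]
        rw [List.getD_eq_getElem _ _ hs] at hl3 hl4
        exact ⟨hl3, hl4⟩
      · rw [Function.update_of_ne h, Finset.mem_range]
        have := hl2 _ (List.getElem_mem i.2)
        omega
    · exact List.ofFn_getElem
  · rw [Set.encard_coe_eq_coe_finsetCard, h1]

/-- The number of labelings with a small label. -/
lemma count_all (T H c : ℕ) :
    {l : List ℕ | (l.length = T ∧ ∀ x ∈ l, x ≤ H) ∧
      ∃ s < T, 2 ≤ l.getD s 0 ∧ l.getD s 0 < c + 2}.encard * ((H + 1 : ℕ) : ℕ∞)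
      ≤ ((T * c * (H + 1) ^ T : ℕ) : ℕ∞) := by
  classical
  have h1 : {l : List ℕ | (l.length = T ∧ ∀ x ∈ l, x ≤ H) ∧
      ∃ s < T, 2 ≤ l.getD s 0 ∧ l.getD s 0 < c + 2} = ⋃ s ∈ Finset.range T,
        {l : List ℕ | (l.length = T ∧ ∀ x ∈ l, x ≤ H) ∧ 2 ≤ l.getD s 0 ∧ l.getD s 0 < c + 2} := by
    ext l
    simp only [Set.mem_ofPred_eq, Set.mem_iUnion, Finset.mem_range]
    constructor
    · rintro ⟨h1, s, hs, h2⟩
      exact ⟨s, hs, h1, h2⟩
    · rintro ⟨s, hs, h1, h2⟩
      exact ⟨h1, s, hs, h2⟩
  rw [h1]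
  have h2 : ∀ F : Finset ℕ, F ⊆ Finset.range T → (⋃ s ∈ F,
      {l : List ℕ | (l.length = T ∧ ∀ x ∈ l, x ≤ H) ∧ 2 ≤ l.getD s 0 ∧ l.getD s 0 < c + 2}).encard
        ≤ ((F.card * (c * (H + 1) ^ (T - 1)) : ℕ) : ℕ∞) := by
    intro F
    induction F using Finset.induction_on with
    | empty => simp
    | insert s F hs ih =>
      intro hF
      rw [Finset.set_biUnion_insert, Finset.card_insert_of_notMem hs]
      refine (Set.encard_union_le _ _).trans ?_
      have h3 := ih fun x hx => hF (Finset.mem_insert_of_mem hx)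
      have h4 := count (T := T) (H := H) (c := c) (s := s)
        (Finset.mem_range.1 (hF (Finset.mem_insert_self _ _)))
      refine (add_le_add h4 h3).trans (le_of_eq ?_)
      push_cast
      ring
  have h3 := h2 (Finset.range T) (Finset.Subset.refl _)
  rw [Finset.card_range] at h3
  refine (mul_le_mul' h3 le_rfl).trans ?_
  norm_cast
  rcases Nat.eq_zero_or_pos T with rfl | hT
  · simp
  · refine le_of_eq ?_
    have e : (H + 1) ^ T = (H + 1) ^ (T - 1) * (H + 1) := by
      rw [← pow_succ]
      congr 1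
      omega
    rw [e]
    ring

/-- **The algorithm fails rarely.** -/
theorem alg_few (n H : ℕ) (w : List (ℕ × Bool)) :
    {l | l ∈ Labels n H ∧ ¬ (alg (n, l, w) = true ↔ WP (n, l, w))}.encard * ((H + 1 : ℕ) : ℕ∞)
      ≤ ((tri n * (2 * w.length + 1) * (H + 1) ^ tri n : ℕ) : ℕ∞) := by
  refine (mul_le_mul' (Set.encard_le_encard ?_) le_rfl).trans
    (count_all (tri n) H (2 * w.length + 1))
  rintro l ⟨h1, h2⟩
  refine ⟨h1, ?_⟩
  by_contra hcon
  refine h2 (alg_right fun i j hij hj => ?_)
  by_contra hc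
  rw [not_or] at hc
  refine hcon ⟨tri j + i, idx_lt hij hj, ?_⟩
  unfold lab at hc
  rw [if_pos hij] at hc
  omega

end Pool.Agent.H34.TH
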